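import Mathlib

/-!
# Simplest forms of positions with Left and Right terminals are not unique

Let `A = {*L, *R}`, `A₂ = {*L, *R, {A}}`, `A₃ = {*L, *R, {A₂}}` and `G = {A₂, A₃}`.  Then
`A ≡ A₂ ≡ A₃`, so rule (S2) simplifies `G` to `{A₂}` and also to `{A₃}`.  Both are reduced, and they
are not isomorphic.
-/

set_option autoImplicit false

namespace Pool.Agent.Results.MP_31d4f2_co.NotUnique

/-- Positions: the terminals `*L`, `*R`, and the position `node n g = {g 0, …, g n}` with the
`n + 1` options `g 0, …, g n`. -/
inductive Pos : Type
  | L : Pos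
  | R : Pos
  | node (n : ℕ) (g : Fin (n + 1) → Pos) : Pos

open Pos

/-- the height of the game tree (only used to see that the recursive definition of the sum is
well founded) -/
def height : Pos → ℕ
  | L => 0
  | R => 0
  | node _ g => (Finset.univ.sup fun i => height (g i)) + 1

theorem height_lt {n : ℕ} (g : Fin (n + 1) → Pos) (i : Fin (n + 1)) :
    height (g i) < height (node n g) := by
  rw [height]
  exact Nat.lt_succ_of_le (Finset.le_sup (f := fun i => height (g i)) (Finset.mem_univ i))

/-- the disjunctive sum -/
def add : Pos → Pos → Pos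
  | L, L => L
  | R, R => L
  | L, R => R
  | R, L => R
  | node n g, L => node n fun i => add (g i) L
  | node n g, R => node n fun i => add (g i) R
  | L, node m h => node m fun j => add L (h j)
  | R, node m h => node m fun j => add R (h j)
  | node n g, node m h =>
      node (n + 1 + m)
        (Fin.append (m := n + 1) (n := m + 1) (fun i => add (g i) (node m h))
          (fun j => add (node n g) (h j)))
termination_by G H => height G + height H
decreasing_by
  all_goals first
    | (have := height_lt g i; omega)
    | (have := height_lt h j; omega)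

/-- `leftWins G p`: Left wins `G`, if Left moves first (`p = true`), or if Right moves first
(`p = false`) -/
def leftWins : Pos → Bool → Prop
  | L, _ => True
  | R, _ => False
  | node _ g, true => ∃ i, leftWins (g i) false
  | node _ g, false => ∀ i, leftWins (g i) true

/-- the four outcome classes -/
inductive Outcome : Type
  | L : Outcome
  | R : Outcome
  | N : Outcome
  | P : Outcome

open Classical in
/-- the outcome of a position -/
noncomputable def outcome (G : Pos) : Outcome :=
  if leftWins G true then (if leftWins G false then Outcome.L else Outcome.N)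
  else (if leftWins G false then Outcome.P else Outcome.R)

/-- equivalence of positions -/
def Equivalent (G H : Pos) : Prop := ∀ X : Pos, outcome (add G X) = outcome (add H X)

/-- isomorphism of positions -/
def Isomorphic : Pos → Pos → Prop
  | L, L => True
  | R, R => True
  | node n g, node m h =>
      (∀ i : Fin (n + 1), ∃ j : Fin (m + 1), Isomorphic (g i) (h j)) ∧
      (∀ j : Fin (m + 1), ∃ i : Fin (n + 1), Isomorphic (g i) (h j))
  | _, _ => False

/-- the position `{G}` -/
def single (G : Pos) : Pos := node 0 fun _ => G

/-- `G` has an option equivalent to `K` -/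
def HasOption (G K : Pos) : Prop := ∃ n g i, G = node n g ∧ Equivalent (g i) K

/-- One simplification step, applied to the position itself by (S1) for `*L` or `*R` or by (S2), or
inside one of its options. The distinguished option `G₁` is `g i`. -/
inductive Step : Pos → Pos → Prop
  | s1L (n : ℕ) (g : Fin (n + 1) → Pos) (i : Fin (n + 1)) (h1 : Equivalent (g i) (single L))
      (h2 : ∀ j, HasOption (g j) L) : Step (node n g) L
  | s1R (n : ℕ) (g : Fin (n + 1) → Pos) (i : Fin (n + 1)) (h1 : Equivalent (g i) (single R))
      (h2 : ∀ j, HasOption (g j) R) : Step (node n g) R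
  | s2 (n : ℕ) (g : Fin (n + 1) → Pos) (i : Fin (n + 1)) (hn : 2 ≤ n + 1)
      (h : ∀ j, j ≠ i → HasOption (g j) (single (g i))) : Step (node n g) (single (g i))
  | inside (n : ℕ) (g : Fin (n + 1) → Pos) (i : Fin (n + 1)) (K : Pos) (h : Step (g i) K) :
      Step (node n g) (node n (Function.update g i K))

/-- no simplification step applies -/
def Reduced (G : Pos) : Prop := ∀ K, ¬ Step G K

/-! ### Outcomes -/

/-- player `q` (`true` for Left) wins `G` moving first -/
def M (q : Bool) (G : Pos) : Prop := if q then leftWins G true else ¬ leftWins G false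

theorem M_node (q : Bool) (n : ℕ) (g : Fin (n + 1) → Pos) :
    M q (node n g) ↔ ∃ i, ¬ M (!q) (g i) := by
  cases q
  · simp [M, leftWins]
  · simp [M, leftWins]

theorem outcome_eq_iff (G H : Pos) : outcome G = outcome H ↔ ∀ q, (M q G ↔ M q H) := by
  unfold outcome M
  by_cases h1 : leftWins G true <;> by_cases h2 : leftWins G false <;>
    by_cases h3 : leftWins H true <;> by_cases h4 : leftWins H false <;> simp [h1, h2, h3, h4]

theorem equivalent_iff (G H : Pos) :
    Equivalent G H ↔ ∀ X q, (M q (add G X) ↔ M q (add H X)) := by
  unfold Equivalent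
  exact forall_congr' fun X => outcome_eq_iff _ _

theorem M_L (q : Bool) : M q L ↔ q = true := by
  cases q <;> simp [M, leftWins]

theorem M_R (q : Bool) : M q R ↔ q = false := by
  cases q <;> simp [M, leftWins]

theorem add_L : ∀ G : Pos, add G L = G
  | L => by rw [add]
  | R => by rw [add]
  | node n g => by
      rw [add]
      congr
      funext i
      exact add_L (g i)

theorem Equivalent.refl (G : Pos) : Equivalent G G := fun _ => rfl

theorem Equivalent.symm {G H : Pos} (h : Equivalent G H) : Equivalent H G := fun X => (h X).symm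

/-- the options of `X`, if any -/
def Opt (X Y : Pos) : Prop := ∃ n g i, X = node n g ∧ Y = g i

theorem M_add (q : Bool) (n : ℕ) (g : Fin (n + 1) → Pos) (X : Pos) :
    M q (add (node n g) X) ↔
      (∃ i, ¬ M (!q) (add (g i) X)) ∨ ∃ Y, Opt X Y ∧ ¬ M (!q) (add (node n g) Y) := by
  cases X with
  | L =>
    rw [add, M_node]
    constructor
    · intro h
      exact Or.inl h
    · rintro (h | ⟨Y, ⟨m, h, j, hX, -⟩, -⟩)
      · exact h
      · cases hX
  | R =>
    rw [add, M_node]
    constructor
    · intro h
      exact Or.inl h
    · rintro (h | ⟨Y, ⟨m, h, j, hX, -⟩, -⟩)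
      · exact h
      · cases hX
  | node m h =>
    rw [add, M_node]
    constructor
    · rintro ⟨k, hk⟩
      revert hk
      refine Fin.addCases (motive := fun k : Fin (n + 1 + (m + 1)) =>
        ¬ M (!q) (Fin.append (fun i => add (g i) (node m h)) (fun j => add (node n g) (h j)) k) →
        _) (fun i => ?_) (fun j => ?_) k
      · rw [Fin.append_left]
        intro hi
        exact Or.inl ⟨i, hi⟩
      · rw [Fin.append_right]
        intro hj
        exact Or.inr ⟨h j, ⟨m, h, j, rfl, rfl⟩, hj⟩
    · rintro (⟨i, hi⟩ | ⟨Y, ⟨m', h', j, hX, rfl⟩, hY⟩)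
      · refine ⟨Fin.castAdd (m + 1) i, ?_⟩
        rw [Fin.append_left]
        exact hi
      · cases hX
        refine ⟨Fin.natAdd (n + 1) j, ?_⟩
        rw [Fin.append_right]
        exact hY

theorem opt_height {X Y : Pos} (h : Opt X Y) : height Y < height X := by
  obtain ⟨n, g, i, rfl, rfl⟩ := h
  exact height_lt g i

/-- induction over the options -/
theorem opt_induction {P : Pos → Prop} (h : ∀ X, (∀ Y, Opt X Y → P Y) → P X) (X : Pos) : P X := by
  induction hn : height X using Nat.strong_induction_on generalizing X with
  | _ n ih => exact h X fun Y hY => ih _ (hn ▸ opt_height hY) Y rfl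

/-- equivalent positions have equivalent singletons -/
theorem single_congr {C D : Pos} (h : Equivalent C D) : Equivalent (single C) (single D) := by
  rw [equivalent_iff] at h ⊢
  intro X
  induction X using opt_induction with
  | h X ih =>
    intro q
    unfold single at ih ⊢
    rw [M_add, M_add]
    refine or_congr ?_ ?_
    · exact exists_congr fun _ => not_congr (h X _)
    · exact exists_congr fun Y => and_congr_right fun hY => not_congr (ih Y hY _)

/-- `{*L, *R}` -/
def A : Pos := node 1 ![L, R]

/-- `{*L, *R, E}` -/
def B (E : Pos) : Pos := node 2 ![L, R, E]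

theorem M_add_A (q : Bool) (X : Pos) :
    M q (add A X) ↔ (¬ M (!q) (add L X) ∨ ¬ M (!q) (add R X)) ∨
      ∃ Y, Opt X Y ∧ ¬ M (!q) (add A Y) := by
  unfold A
  rw [M_add]
  refine or_congr ?_ Iff.rfl
  rw [Fin.exists_fin_two]
  rfl

theorem M_add_B (q : Bool) (E X : Pos) :
    M q (add (B E) X) ↔ (¬ M (!q) (add L X) ∨ ¬ M (!q) (add R X) ∨ ¬ M (!q) (add E X)) ∨
      ∃ Y, Opt X Y ∧ ¬ M (!q) (add (B E) Y) := by
  unfold B
  rw [M_add]
  refine or_congr ?_ Iff.rfl
  rw [Fin.exists_fin_succ, Fin.exists_fin_two]
  rfl

/-- an option equivalent to `{A}` may be added to `A` -/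
theorem key {E : Pos} (hE : Equivalent E (single A)) : Equivalent (B E) A := by
  rw [equivalent_iff] at hE ⊢
  intro X
  induction X using opt_induction with
  | h X ih =>
    intro q
    constructor
    · intro h
      by_contra hA
      rw [M_add_A] at hA
      push Not at hA
      obtain ⟨⟨h1, h2⟩, h3⟩ := hA
      rw [M_add_B] at h
      rcases h with (h | h | h) | ⟨Y, hY, h⟩
      · exact h h1
      · exact h h2
      · apply h
        rw [hE, single, M_add]
        refine Or.inl ⟨0, ?_⟩
        rw [Bool.not_not, M_add_A]
        push Not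
        exact ⟨⟨h1, h2⟩, h3⟩
      · rw [ih Y hY] at h
        exact h (h3 Y hY)
    · intro h
      rw [M_add_A] at h
      rw [M_add_B]
      rcases h with (h | h) | ⟨Y, hY, h⟩
      · exact Or.inl (Or.inl h)
      · exact Or.inl (Or.inr (Or.inl h))
      · refine Or.inr ⟨Y, hY, ?_⟩
        rw [ih Y hY]
        exact h

/-- `{*L, *R, {A}}` -/
def A2 : Pos := B (single A)

/-- `{*L, *R, {A₂}}` -/
def A3 : Pos := B (single A2)

theorem A2_equivalent : Equivalent A2 A := key (Equivalent.refl _)

theorem A3_equivalent : Equivalent A3 A := key (single_congr A2_equivalent)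

/-- `{A₂, A₃}` -/
def G : Pos := node 1 ![A2, A3]

/-! ### Reduced positions -/

theorem not_hasOption_L (K : Pos) : ¬ HasOption L K := by
  rintro ⟨n, g, i, h, -⟩
  cases h

theorem not_hasOption_R (K : Pos) : ¬ HasOption R K := by
  rintro ⟨n, g, i, h, -⟩
  cases h

theorem reduced_L : Reduced L := by
  intro K h
  cases h

theorem reduced_R : Reduced R := by
  intro K h
  cases h

theorem reduced_A : Reduced A := by
  intro K h
  unfold A at h
  generalize hG : node 1 ![L, R] = G0 at h
  cases h with
  | s1L n g i h1 h2 =>
    cases hG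
    exact not_hasOption_L _ (h2 0)
  | s1R n g i h1 h2 =>
    cases hG
    exact not_hasOption_L _ (h2 0)
  | s2 n g i hn h =>
    cases hG
    by_cases hi : i = 0
    · subst hi
      exact not_hasOption_R _ (h 1 (by decide))
    · exact not_hasOption_L _ (h 0 (Ne.symm hi))
  | inside n g i K h =>
    cases hG
    fin_cases i
    · exact reduced_L _ h
    · exact reduced_R _ h

theorem reduced_B {E : Pos} (hE : Reduced E) : Reduced (B E) := by
  intro K h
  unfold B at h
  generalize hG : node 2 ![L, R, E] = G0 at h
  cases h with
  | s1L n g i h1 h2 =>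
    cases hG
    exact not_hasOption_L _ (h2 0)
  | s1R n g i h1 h2 =>
    cases hG
    exact not_hasOption_L _ (h2 0)
  | s2 n g i hn h =>
    cases hG
    by_cases hi : i = 0
    · subst hi
      exact not_hasOption_R _ (h 1 (by decide))
    · exact not_hasOption_L _ (h 0 (Ne.symm hi))
  | inside n g i K h =>
    cases hG
    fin_cases i
    · exact reduced_L _ h
    · exact reduced_R _ h
    · exact hE _ h

theorem M_of_option (q : Bool) (n : ℕ) (g : Fin (n + 1) → Pos) (i : Fin (n + 1))
    (h : ¬ M (!q) (g i)) : M q (node n g) := (M_node q n g).mpr ⟨i, h⟩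

theorem reduced_single {C : Pos} (hC : Reduced C) (hM : ∀ q, M q C) : Reduced (single C) := by
  intro K h
  unfold single at h
  generalize hG : node 0 (fun _ => C) = G0 at h
  cases h with
  | s1L n g i h1 h2 =>
    cases hG
    rw [equivalent_iff] at h1
    have := (h1 L false).mp (by rw [add_L]; exact hM _)
    rw [add_L, single, M_node] at this
    obtain ⟨-, h⟩ := this
    exact h ((M_L _).mpr rfl)
  | s1R n g i h1 h2 =>
    cases hG
    rw [equivalent_iff] at h1
    have := (h1 L true).mp (by rw [add_L]; exact hM _)
    rw [add_L, single, M_node] at this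
    obtain ⟨-, h⟩ := this
    exact h ((M_R _).mpr rfl)
  | s2 n g i hn h =>
    cases hG
    omega
  | inside n g i K h =>
    cases hG
    exact hC _ h

theorem M_A (q : Bool) : M q A := by
  cases q
  · exact M_of_option false 1 _ 1 fun h => by simpa using (M_R _).mp h
  · exact M_of_option true 1 _ 0 fun h => by simpa using (M_L _).mp h

theorem M_B (E : Pos) (q : Bool) : M q (B E) := by
  cases q
  · exact M_of_option false 2 _ 1 fun h => by simpa using (M_R _).mp h
  · exact M_of_option true 2 _ 0 fun h => by simpa using (M_L _).mp h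

theorem reduced_A2 : Reduced A2 := reduced_B (reduced_single reduced_A M_A)

theorem reduced_A3 : Reduced A3 := reduced_B (reduced_single reduced_A2 (M_B _))

theorem step2 : Step G (single A2) := by
  refine Step.s2 1 ![A2, A3] 0 le_rfl fun j hj => ?_
  have : j = 1 := (by decide : ∀ j : Fin 2, j ≠ 0 → j = 1) j hj
  subst this
  exact ⟨2, ![L, R, single A2], 2, rfl, Equivalent.refl _⟩

theorem step3 : Step G (single A3) := by
  refine Step.s2 1 ![A2, A3] 1 le_rfl fun j hj => ?_
  have : j = 0 := (by decide : ∀ j : Fin 2, j ≠ 1 → j = 0) j hj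
  subst this
  exact ⟨2, ![L, R, single A], 2, rfl, (single_congr A3_equivalent).symm⟩

theorem not_isomorphic : ¬ Isomorphic (single A2) (single A3) := by
  unfold single A2 A3 B A
  simp [Isomorphic, single, A2, B, A, Fin.forall_fin_succ, Fin.exists_fin_succ]

/-- **Theorem.** There is a position from which exhaustive simplification by (S1) and (S2) leads to
two reduced positions which are not isomorphic. -/
theorem result : ∃ G H K : Pos, Relation.ReflTransGen Step G H ∧ Relation.ReflTransGen Step G K ∧
    Reduced H ∧ Reduced K ∧ ¬ Isomorphic H K :=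
  ⟨G, single A2, single A3, Relation.ReflTransGen.single step2, Relation.ReflTransGen.single step3,
    reduced_single reduced_A2 (M_B _), reduced_single reduced_A3 (M_B _), not_isomorphic⟩

end Pool.Agent.Results.MP_31d4f2_co.NotUnique
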